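import Pool.Agent.SQ.Ring

/-!
# T2b: Nielsen-Schreier lifts
-/

set_option autoImplicit false

namespace Helper49.SQ

open _root_.SQ

universe u v

/-- a homomorphism to a free group with kernel `N` gives lifts of a free basis modulo `N` -/
theorem exists_lifts {K : Type u} [Group K] (N N' : Subgroup K) [N.Normal] (hN : N ≤ N')
    {F : Type v} [Group F] [IsFreeGroup F] (φ : N' →* F)
    (hker : ∀ g : N', φ g = 1 ↔ (g : K) ∈ N) :
    ∃ (X : Type v) (x : X → K), (∀ a, x a ∈ N') ∧ N' = N ⊔ Subgroup.closure (Set.range x) ∧
      Function.Injective ((QuotientGroup.mk' N).comp (FreeGroup.lift x)) := by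
  classical
  have : IsFreeGroup φ.range := subgroupIsFreeOfIsFree φ.range
  let X := IsFreeGroup.Generators φ.range
  let b : FreeGroupBasis X φ.range := IsFreeGroup.basis φ.range
  have hl : ∀ a : X, ∃ g : N', φ.rangeRestrict g = b a := fun a =>
    φ.rangeRestrict_surjective (b a)
  choose l hlb using hl
  let s : FreeGroup X →* N' := FreeGroup.lift l
  have hs : ∀ w, φ.rangeRestrict (s w) = b.repr.symm w := by
    intro w
    have : (φ.rangeRestrict.comp s) = b.repr.symm.toMonoidHom := by
      ext a
      simp only [s, MonoidHom.comp_apply, FreeGroup.lift_apply_of, hlb]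
      rfl
    exact DFunLike.congr_fun this w
  refine ⟨X, fun a => (l a : K), fun a => (l a).2, ?_, ?_⟩
  · apply le_antisymm
    · intro g hg
      set C : Subgroup K := N ⊔ Subgroup.closure (Set.range fun a => (l a : K)) with hC
      have hNC : N ≤ C := le_sup_left
      have hlC : ∀ a, (l a : K) ∈ C := fun a =>
        (le_sup_right : _ ≤ C) (Subgroup.subset_closure ⟨a, rfl⟩)
      have hsC : ∀ w, (s w : K) ∈ C := by
        intro w
        have : (C.comap N'.subtype).comap s = ⊤ := by
          rw [eq_top_iff, ← FreeGroup.closure_range_of, Subgroup.closure_le]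
          rintro _ ⟨a, rfl⟩
          change ((s (FreeGroup.of a) : N') : K) ∈ C
          simpa [s] using hlC a
        have hw : w ∈ (C.comap N'.subtype).comap s := by rw [this]; trivial
        exact hw
      obtain ⟨w, hw⟩ : ∃ w, φ.rangeRestrict (s w) = φ.rangeRestrict ⟨g, hg⟩ :=
        ⟨b.repr (φ.rangeRestrict ⟨g, hg⟩), by rw [hs]; simp⟩
      have h1 : φ (⟨g, hg⟩ * (s w)⁻¹) = 1 := by
        have := congrArg Subtype.val hw
        simp only [MonoidHom.coe_rangeRestrict] at this
        rw [map_mul, map_inv, this, mul_inv_cancel]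
      have h2 : g * (s w : K)⁻¹ ∈ N := by
        have := (hker _).1 h1
        simpa using this
      have h3 := C.mul_mem (hNC h2) (hsC w)
      simpa using h3
    · rw [sup_le_iff, Subgroup.closure_le]
      refine ⟨hN, ?_⟩
      rintro y ⟨a, rfl⟩
      exact (l a).2
  · rw [injective_iff_map_eq_one]
    intro w hw
    have hsw : ((s w : N') : K) = FreeGroup.lift (fun a => (l a : K)) w := by
      have : (N'.subtype.comp s) = FreeGroup.lift (fun a => (l a : K)) := by
        ext a
        simp [s]
      exact DFunLike.congr_fun this w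
    have h1 : (s w : K) ∈ N := by
      rw [← QuotientGroup.eq_one_iff, hsw]
      exact hw
    have h2 : φ (s w) = 1 := (hker _).2 h1
    have h3 : b.repr.symm w = 1 := by
      rw [← hs w]
      apply Subtype.ext
      simpa using h2
    have h4 := congrArg b.repr h3
    simpa using h4

/-- **T2b** -/
theorem free : S_free := by
  intro K _ N N' _ C ψ hN hker
  obtain ⟨X, x, h1, h2, h3⟩ := exists_lifts N N' hN ψ hker
  exact ⟨⟨X, x, h1, h2, h3⟩⟩

end Helper49.SQ
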